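import Pool.Agent.Y546.WQ.Stm

/-!
# A `q`-adic embedding of a number field defines a prime ideal (job WQ-BR of the project of helper546)
-/

set_option autoImplicit false

namespace Pool.Agent.Y941.WQ

open NumberField IsDedekindDomain Pool.Agent.Y546.WQ

theorem norm_q (q : ℕ) [Fact q.Prime] : ‖((q : ℕ) : PadicAlgCl q)‖ = (q : ℝ)⁻¹ := by
  rw [← map_natCast (algebraMap ℚ_[q] (PadicAlgCl q)), PadicAlgCl.norm_extends, Padic.norm_p]

theorem norm_q_pos (q : ℕ) [Fact q.Prime] : 0 < ‖((q : ℕ) : PadicAlgCl q)‖ := by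
  rw [norm_q]
  have := (Fact.out : q.Prime).pos
  positivity

theorem norm_q_lt (q : ℕ) [Fact q.Prime] : ‖((q : ℕ) : PadicAlgCl q)‖ < 1 := by
  rw [norm_q]
  exact inv_lt_one_of_one_lt₀ (by exact_mod_cast (Fact.out : q.Prime).one_lt)

/-- integral elements have norm at most one -/
theorem norm_le_of_integral {q : ℕ} [Fact q.Prime] {y : PadicAlgCl q} (hy : IsIntegral ℤ y) :
    ‖y‖ ≤ 1 := by
  have h1 : IsIntegral (Valued.v : Valuation (PadicAlgCl q) NNReal).integer y := hy.tower_top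
  have h2 := (Valuation.integer.integers
    (Valued.v : Valuation (PadicAlgCl q) NNReal)).mem_of_integral h1
  rw [Valuation.mem_integer_iff] at h2
  rw [← PadicAlgCl.valuation_coe]
  exact_mod_cast h2

section

variable {C : Type} [Field C] [NumberField C] {q : ℕ} [Fact q.Prime]

theorem norm_int (τ : C →+* PadicAlgCl q) (x : 𝓞 C) : ‖τ x‖ ≤ 1 := by
  apply norm_le_of_integral
  have h : IsIntegral ℤ (x : C) := RingOfIntegers.isIntegral_coe x
  exact h.map τ.toIntAlgHom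

/-- the prime ideal -/
noncomputable def PI (τ : C →+* PadicAlgCl q) : Ideal (𝓞 C) where
  carrier := {x | ‖τ x‖ < 1}
  zero_mem' := by simp
  add_mem' := by
    intro a b ha hb
    have h1 : ‖τ a‖ < 1 := ha
    have h2 : ‖τ b‖ < 1 := hb
    show ‖τ (algebraMap (𝓞 C) C (a + b))‖ < 1
    rw [map_add, map_add]
    exact lt_of_le_of_lt (PadicAlgCl.isNonarchimedean q _ _) (max_lt h1 h2)
  smul_mem' := by
    intro a b hb
    have h2 : ‖τ b‖ < 1 := hb
    show ‖τ (algebraMap (𝓞 C) C (a • b))‖ < 1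
    rw [smul_eq_mul, map_mul, map_mul, norm_mul]
    exact lt_of_le_of_lt (mul_le_of_le_one_left (norm_nonneg _) (norm_int τ a)) h2

theorem mem_PI (τ : C →+* PadicAlgCl q) (x : 𝓞 C) :
    x ∈ PI τ ↔ ‖τ (algebraMap (𝓞 C) C x)‖ < 1 := Iff.rfl

theorem q_mem (τ : C →+* PadicAlgCl q) : ((q : ℕ) : 𝓞 C) ∈ PI τ := by
  rw [mem_PI, map_natCast, map_natCast]
  exact norm_q_lt q

theorem PI_prime (τ : C →+* PadicAlgCl q) : (PI τ).IsPrime := by
  rw [Ideal.isPrime_iff]
  constructor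
  · rw [Ne, Ideal.eq_top_iff_one, mem_PI, map_one, map_one, norm_one]
    exact lt_irrefl 1
  · intro x y hxy
    rw [mem_PI, map_mul, map_mul, norm_mul] at hxy
    rw [mem_PI, mem_PI]
    by_contra hcon
    push Not at hcon
    have := one_le_mul_of_one_le_of_one_le hcon.1 hcon.2
    linarith

/-- the prime ideal as a point of height one -/
noncomputable def PP (τ : C →+* PadicAlgCl q) : HeightOneSpectrum (𝓞 C) where
  asIdeal := PI τ
  isPrime := PI_prime τ
  ne_bot := by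
    intro h
    have h1 := q_mem τ
    rw [h, Ideal.mem_bot] at h1
    have h2 : q ≠ 0 := (Fact.out : q.Prime).ne_zero
    exact h2 (by exact_mod_cast h1)

theorem norm_one_of_notMem (τ : C →+* PadicAlgCl q) {x : 𝓞 C} (h : x ∉ (PP τ).asIdeal) :
    ‖τ x‖ = 1 :=
  le_antisymm (norm_int τ x) (not_lt.1 fun h' => h h')

/-- the valuation of `q` -/
theorem val_q (τ : C →+* PadicAlgCl q) (h2 : ((q : ℕ) : 𝓞 C) ∉ (PP τ).asIdeal ^ 2) :
    (PP τ).valuation C ((q : ℕ) : C) = WithZero.exp (-1 : ℤ) := by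
  have h1 : ((q : ℕ) : 𝓞 C) ∈ (PP τ).asIdeal ^ 1 := by
    rw [pow_one]
    exact q_mem τ
  have hq0 : ((q : ℕ) : 𝓞 C) ≠ 0 := by
    exact_mod_cast (Fact.out : q.Prime).ne_zero
  have e : ((q : ℕ) : C) = algebraMap (𝓞 C) C ((q : ℕ) : 𝓞 C) := by rw [map_natCast]
  rw [e, HeightOneSpectrum.valuation_of_algebraMap]
  rw [← HeightOneSpectrum.intValuation_le_pow_iff_mem] at h1 h2
  rw [HeightOneSpectrum.intValuation_if_neg _ hq0] at h1 h2 ⊢
  rw [WithZero.exp_le_exp] at h1 h2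
  congr 1
  push_cast at h1 h2
  omega

theorem main : S_BR := by
  intro p _ C _ _ c q _ hqp τ
  have hun := c.unram (PP τ) q Fact.out hqp (q_mem τ)
  refine ⟨PP τ, q_mem τ, fun x => Iff.rfl, ?_⟩
  intro x k hx
  have hq0 : ((q : ℕ) : C) ≠ 0 := by
    exact_mod_cast (Fact.out : q.Prime).ne_zero
  obtain ⟨u, hu⟩ : ∃ u : C, u = x / ((q : ℕ) : C) ^ k := ⟨_, rfl⟩
  have hxu : x = u * ((q : ℕ) : C) ^ k := by
    rw [hu]
    field_simp
  have hvu : (PP τ).valuation C u = 1 := by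
    rw [hu, map_div₀, map_zpow₀, val_q τ hun, hx, ← WithZero.exp_zsmul, ← WithZero.exp_sub]
    simp
  obtain ⟨n, d, hnd⟩ := HeightOneSpectrum.exists_primeCompl_mul_eq_of_integer (PP τ) u hvu.le
  have hd : (d : 𝓞 C) ∉ (PP τ).asIdeal := d.2
  have hn : n ∉ (PP τ).asIdeal := by
    have h1 := congrArg ((PP τ).valuation C) hnd
    rw [map_mul, hvu, one_mul, (HeightOneSpectrum.valuation_eq_one_iff_notMem (PP τ)).2 hd] at h1
    exact (HeightOneSpectrum.valuation_eq_one_iff_notMem (PP τ)).1 h1.symm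
  have h2 := congrArg (fun y => ‖τ y‖) hnd
  simp only [map_mul, norm_mul] at h2
  have h3 : ‖τ (algebraMap (𝓞 C) C d)‖ = 1 := norm_one_of_notMem τ hd
  have h4 : ‖τ (algebraMap (𝓞 C) C n)‖ = 1 := norm_one_of_notMem τ hn
  rw [h3, h4, mul_one] at h2
  rw [hxu, map_mul, norm_mul, h2, one_mul, map_zpow₀, norm_zpow, map_natCast]

end

end Pool.Agent.Y941.WQ
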